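import Pool.Agent.X9.ES.Final

/-!
The order of magnitude of the `k`-fold sum-product exponent when `k` grows with `|A|`.
-/

set_option autoImplicit false

namespace Pool.Agent.Results.MP_120218_co.GrowingFoldOrder

open Finset Real

/-- `max(|kA|, |A^k|)` -/
def big (k : ℕ) (A : Finset ℤ) : ℕ :=
  max ((Fintype.piFinset fun _ : Fin k => A).image fun f => ∑ i, f i).card
    ((Fintype.piFinset fun _ : Fin k => A).image fun f => ∏ i, f i).card

/-- The least value of `max(|kA|, |A^k|)` for the sets `A` of `n` integers. -/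
noncomputable def g (n k : ℕ) : ℕ := sInf {M | ∃ A : Finset ℤ, A.card = n ∧ M = big k A}

theorem result :
    -- (1) the exact order of the exponent, for `k` between two powers of `log n`, for `k` between
    -- `exp((log log n)^(1+δ))` and `exp n`, and of `log (g n k)` for `k` beyond `exp n`
    (∀ δ : ℝ, 0 < δ → δ ≤ 1 → ∃ c C : ℝ, 0 < c ∧ 0 < C ∧ ∀ n k : ℕ, 16 ≤ n → 2 ≤ k →
      (log n ^ δ ≤ k → (k : ℝ) ≤ log n ^ (1 / δ) →
        (n : ℝ) ^ (c * log (log n)) ≤ g n k ∧ (g n k : ℝ) ≤ (n : ℝ) ^ (C * log (log n))) ∧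
      (16 ≤ k → exp (log (log n) ^ (1 + δ)) ≤ k → (k : ℝ) ≤ exp n →
        (n : ℝ) ^ (c * (log k / log (log k))) ≤ g n k ∧
        (g n k : ℝ) ≤ (n : ℝ) ^ (C * (log k / log (log k)))) ∧
      (exp n ≤ k → (k : ℝ) ≤ g n k ∧ (g n k : ℝ) ≤ (k : ℝ) ^ 2)) ∧
    -- (2) bounds for all `n` and `k`
    (∃ c C : ℝ, 0 < c ∧ 0 < C ∧ ∀ n k : ℕ, 16 ≤ n → 2 ≤ k →
      (n : ℝ) ^ (c * min (log k) (log (log n))) ≤ g n k ∧
      (16 ≤ k → (n : ℝ) ^ (c * (log k / log (log k))) ≤ g n k) ∧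
      (g n k : ℝ) ≤
        (n : ℝ) ^ (C * (max (log k) (log (log n)) / log (2 + min (log k) n / log (log n))))) :=
  ⟨Pool.Agent.X9.ES.order, Pool.Agent.X9.ES.general⟩

end Pool.Agent.Results.MP_120218_co.GrowingFoldOrder
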