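import Pool.Agent.X9.ES.BC

/-!
The optimal number of summands and factors in the theorem of Bourgain and Chang.
-/

set_option autoImplicit false

namespace Pool.Agent.Results.MP_120218_co.OptimalNumberOfSummands

open Finset Real

/-- `max(|kA|, |A^k|)` -/
def big (k : ℕ) (A : Finset ℤ) : ℕ :=
  max ((Fintype.piFinset fun _ : Fin k => A).image fun f => ∑ i, f i).card
    ((Fintype.piFinset fun _ : Fin k => A).image fun f => ∏ i, f i).card

theorem result :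
    (∀ b : ℝ, 2 ≤ b → ∀ k : ℕ, b ^ (100 * b) ≤ k → ∀ A : Finset ℤ, A.Nonempty →
      (A.card : ℝ) ^ b ≤ big k A) ∧
    ∃ b₀ : ℝ, ∀ b : ℝ, b₀ ≤ b → ∀ k : ℕ, 1 ≤ k → (k : ℝ) ≤ b ^ (b / 2000) →
      ∃ A : Finset ℤ, A.Nonempty ∧ (∀ a ∈ A, 0 < a) ∧ (big k A : ℝ) < (A.card : ℝ) ^ b :=
  ⟨Pool.Agent.X9.ES.bc_upper, Pool.Agent.X9.ES.bc_lower⟩

end Pool.Agent.Results.MP_120218_co.OptimalNumberOfSummands
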