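import Pool.Agent.X9.ES.DenseFin

/-!
The exact lower order term for sets of `n` integers of size at most `n ^ κ`.
-/

set_option autoImplicit false

namespace Pool.Agent.Results.MP_120218_co.SharpLowerOrderTerm

open Finset Real

/-- The set `kA`. -/
def sums (k : ℕ) (A : Finset ℤ) : Finset ℤ :=
  (Fintype.piFinset fun _ : Fin k => A).image fun f => ∑ i, f i

/-- The set `A ^ k`. -/
def products (k : ℕ) (A : Finset ℤ) : Finset ℤ :=
  (Fintype.piFinset fun _ : Fin k => A).image fun f => ∏ i, f i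

theorem result (k : ℕ) (hk : 2 ≤ k) :
    -- (1) product sets of sets of polynomially bounded integers
    (∀ κ : ℝ, 1 ≤ κ → ∀ δ : ℝ, 0 < δ → ∃ n₀ : ℕ, ∀ A : Finset ℤ, n₀ ≤ A.card →
      (∀ a ∈ A, |(a : ℝ)| ≤ (A.card : ℝ) ^ κ) →
      (A.card : ℝ) ^ ((k : ℝ) - (k * (κ - 1) * log k + δ) / log (log A.card)) ≤
        (products k A).card) ∧
    -- (2) the constant is optimal for every `κ > 1` and every large `n`
    (∀ κ : ℝ, 1 < κ → ∀ δ : ℝ, 0 < δ → ∃ n₀ : ℕ, ∀ n : ℕ, n₀ ≤ n → ∃ A : Finset ℤ, A.card = n ∧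
      (∀ a ∈ A, 0 < a ∧ (a : ℝ) ≤ (n : ℝ) ^ κ) ∧
      ((products k A).card : ℝ) ≤
        (n : ℝ) ^ ((k : ℝ) - (k * (κ - 1) * log k - δ) / log (log n))) ∧
    -- (3) few sums and few products
    (∀ δ : ℝ, 0 < δ → ∃ n₀ : ℕ, ∀ n : ℕ, n₀ ≤ n → ∃ A : Finset ℤ, A.card = n ∧
      (∀ a ∈ A, 0 < a ∧ (a : ℝ) ≤ (n : ℝ) ^ (k : ℝ)) ∧
      max ((sums k A).card : ℝ) ((products k A).card : ℝ) ≤
        (n : ℝ) ^ ((k : ℝ) - (k * (k - 1) * log k - δ) / log (log n))) :=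
  ⟨fun κ hκ δ hδ => Pool.Agent.X9.ES.dense_lower k (by omega) κ hκ δ hδ,
    fun κ hκ δ hδ => Pool.Agent.X9.ES.dense_upper k (by omega) κ hκ δ hδ,
    fun δ hδ => Pool.Agent.X9.ES.both_upper k hk δ hδ⟩

end Pool.Agent.Results.MP_120218_co.SharpLowerOrderTerm
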