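import Pool.Agent.X9.ES.Thr

/-!
Few sums and few products when `k` grows slowly with `|A|`: the exponent is `o(k)` beyond
`k = log log |A| / log log log |A|`.
-/

set_option autoImplicit false

namespace Pool.Agent.Results.MP_120218_co.UniformityThreshold

open Finset Real

/-- `max(|kA|, |A^k|)` -/
def big (k : ℕ) (A : Finset ℤ) : ℕ :=
  max ((Fintype.piFinset fun _ : Fin k => A).image fun f => ∑ i, f i).card
    ((Fintype.piFinset fun _ : Fin k => A).image fun f => ∏ i, f i).card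

theorem result :
    -- (1) the construction
    (∀ n k : ℕ, 16 ≤ n → 2 ≤ k → (k : ℝ) ≤ log n →
      ∃ A : Finset ℤ, (∀ a ∈ A, 0 < a) ∧ A.card = n ∧
        (big k A : ℝ) ≤ (n : ℝ) ^ (300 * (log (log n) / log (exp 1 * log (log n) / log k)))) ∧
    -- (2) no uniform positive proportion of the exponent `k`
    (∀ ε : ℝ, 0 < ε → ∃ C : ℝ, 0 < C ∧ ∃ n₀ : ℕ, ∀ n k : ℕ, n₀ ≤ n →
      C * (log (log n) / log (log (log n))) ≤ k →
        ∃ A : Finset ℤ, (∀ a ∈ A, 0 < a) ∧ A.card = n ∧ (big k A : ℝ) ≤ (n : ℝ) ^ (ε * k)) ∧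
    -- (3) the constants
    (∀ δ : ℝ, 0 < δ → ∃ η : ℝ, 0 < η ∧ ∃ k₀ : ℕ, ∀ k : ℕ, k₀ ≤ k → ∀ c : ℝ,
      (∀ A : Finset ℤ, A.Nonempty → (∀ a ∈ A, 0 < a) →
        c * (A.card : ℝ) ^ (δ * k) ≤ big k A) →
          c ≤ exp (-exp (η * (k * log k)))) :=
  ⟨fun _ _ hn hk hkn => Pool.Agent.X9.ES.unif hn hk hkn, Pool.Agent.X9.ES.threshold,
    Pool.Agent.X9.ES.constants2⟩

end Pool.Agent.Results.MP_120218_co.UniformityThreshold
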